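import Mathlib

set_option autoImplicit false
open Filter Topology

namespace Pool.Agent.Results.MP_aae597_nt.LandauFalse

noncomputable def emb : OnePoint ℕ → ℝ := fun x => x.elim 0 (fun n => 1 / ((n : ℝ) + 1))

lemma emb_cont : Continuous emb := by
  rw [OnePoint.continuous_iff_from_nat]
  exact tendsto_one_div_add_atTop_nhds_zero_nat

lemma emb_inj : Function.Injective emb := by
  intro x y h
  induction x using OnePoint.rec <;> induction y using OnePoint.rec
  · rfl
  · rename_i n
    have : (0 : ℝ) = 1 / ((n : ℝ) + 1) := h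
    have h2 : (0 : ℝ) < 1 / ((n : ℝ) + 1) := by positivity
    linarith
  · rename_i n
    have : 1 / ((n : ℝ) + 1) = (0 : ℝ) := h
    have h2 : (0 : ℝ) < 1 / ((n : ℝ) + 1) := by positivity
    linarith
  · rename_i n m
    have h1 : 1 / ((n : ℝ) + 1) = 1 / ((m : ℝ) + 1) := h
    rw [one_div, one_div, inv_inj] at h1
    have : (n : ℝ) = m := by linarith
    have : n = m := by exact_mod_cast this
    rw [this]

def sh : OnePoint ℕ → OnePoint ℕ := fun x => x.elim OnePoint.infty (fun n => ((n + 1 : ℕ) : OnePoint ℕ))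

lemma tend_inf : Tendsto (fun n : ℕ => (n : OnePoint ℕ)) atTop (𝓝 OnePoint.infty) :=
  (OnePoint.continuous_iff_from_nat id).mp continuous_id

lemma sh_cont : Continuous sh := by
  rw [OnePoint.continuous_iff_from_nat]
  exact tend_inf.comp (tendsto_add_atTop_nat 1)

lemma sh_iter (k n : ℕ) : sh^[k] (n : OnePoint ℕ) = ((n + k : ℕ) : OnePoint ℕ) := by
  induction k with
  | zero => rfl
  | succ k ih => rw [Function.iterate_succ_apply', ih]; rfl

lemma sh_inf (k : ℕ) : sh^[k] OnePoint.infty = OnePoint.infty :=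
  Function.iterate_fixed rfl k

noncomputable def bb (n : ℕ) : ℝ := ((ArithmeticFunction.moebius n : ℤ) : ℝ) ^ 2 / n

noncomputable def ss (N : ℕ) : ℝ := ∑ n ∈ Finset.range (N + 1), bb n

lemma bb_nonneg (n : ℕ) : 0 ≤ bb n := by unfold bb; positivity

lemma ss_mono : Monotone ss := fun _ _ h =>
  Finset.sum_le_sum_of_subset_of_nonneg (Finset.range_mono (by omega)) (fun i _ _ => bb_nonneg i)

lemma ss_nonneg (N : ℕ) : 0 ≤ ss N := Finset.sum_nonneg (fun i _ => bb_nonneg i)

lemma ss_tend : Tendsto ss atTop atTop := by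
  have h : ¬ Summable bb := by
    intro h
    apply not_summable_one_div_on_primes
    refine Summable.of_nonneg_of_le (fun n => Set.indicator_nonneg (fun _ _ => by positivity) n)
      (fun n => ?_) h
    by_cases hn : n.Prime
    · rw [Set.indicator_of_mem (show n ∈ {p : ℕ | p.Prime} from hn)]
      unfold bb
      rw [ArithmeticFunction.moebius_apply_prime hn]
      norm_num
    · rw [Set.indicator_of_notMem (show n ∉ {p : ℕ | p.Prime} from hn)]
      exact bb_nonneg n
  exact ((not_summable_iff_tendsto_nat_atTop_of_nonneg bb_nonneg).mp h).comp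
    (tendsto_add_atTop_nat 1)

noncomputable def ee (n : ℕ) : ℝ := (√(ss n + 1))⁻¹

lemma sq_tend : Tendsto (fun n => √(ss n + 1)) atTop atTop :=
  Real.tendsto_sqrt_atTop.comp (tendsto_atTop_add_const_right _ 1 ss_tend)

lemma ee_tend : Tendsto ee atTop (𝓝 0) := sq_tend.inv_tendsto_atTop

noncomputable def ff : OnePoint ℕ → ℂ := fun x =>
  x.elim 0 (fun n => ((((ArithmeticFunction.moebius n : ℤ) : ℝ) * ee n : ℝ) : ℂ))

lemma ff_cont : Continuous ff := by
  rw [OnePoint.continuous_iff_from_nat]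
  have h : Tendsto (fun n : ℕ => ((ArithmeticFunction.moebius n : ℤ) : ℝ) * ee n) atTop (𝓝 0) := by
    apply squeeze_zero_norm (a := ee) _ ee_tend
    intro n
    have h1 : |((ArithmeticFunction.moebius n : ℤ) : ℝ)| ≤ 1 := by
      exact_mod_cast ArithmeticFunction.abs_moebius_le_one
    have h2 : 0 ≤ ee n := by unfold ee; positivity
    rw [Real.norm_eq_abs, abs_mul, abs_of_nonneg h2]
    nlinarith [abs_nonneg ((ArithmeticFunction.moebius n : ℤ) : ℝ)]
  have := (Complex.continuous_ofReal.tendsto 0).comp h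
  exact this

lemma sum_ge (N : ℕ) : √(ss N + 1) - 1 ≤ ∑ n ∈ Finset.Icc 1 N, bb n * ee n := by
  have h1 : ∑ n ∈ Finset.Icc 1 N, bb n * ee N ≤ ∑ n ∈ Finset.Icc 1 N, bb n * ee n := by
    apply Finset.sum_le_sum
    intro n hn
    apply mul_le_mul_of_nonneg_left _ (bb_nonneg n)
    unfold ee
    have := ss_mono (Finset.mem_Icc.mp hn).2
    have h0 := ss_nonneg n
    exact inv_anti₀ (Real.sqrt_pos.mpr (by linarith)) (Real.sqrt_le_sqrt (by linarith))
  have h2 : ∑ n ∈ Finset.Icc 1 N, bb n = ss N := by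
    unfold ss
    rw [Finset.range_eq_Ico, Finset.sum_eq_sum_Ico_succ_bot (by omega)]
    have : bb 0 = 0 := by simp [bb]
    rw [this, zero_add]; rfl
  rw [← Finset.sum_mul, h2] at h1
  refine le_trans ?_ h1
  have h0 := ss_nonneg N
  have h3 : 1 ≤ √(ss N + 1) := Real.one_le_sqrt.mpr (by linarith)
  have h4 := Real.mul_self_sqrt (show 0 ≤ ss N + 1 by linarith)
  unfold ee
  rw [← div_eq_mul_inv, le_div_iff₀ (by linarith)]
  nlinarith

lemma notL : ¬ (∀ (X : Type) [MetricSpace X] [CompactSpace X] (T : X → X), Continuous T →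
      Dynamics.coverEntropy T Set.univ = 0 →
      ∀ f : X → ℂ, Continuous f → ∀ x : X,
        ∃ L : ℂ, Tendsto (fun N : ℕ =>
          ∑ n ∈ Finset.Icc 1 N,
            ((ArithmeticFunction.moebius n : ℤ) : ℂ) / (n : ℂ) * f (T^[n] x))
          atTop (𝓝 L)) := by
  classical
  intro h
  letI m : MetricSpace (OnePoint ℕ) :=
    (emb_cont.isClosedEmbedding emb_inj).isEmbedding.comapMetricSpace
  have hent : Dynamics.coverEntropy sh Set.univ = 0 := by
    apply le_antisymm _ (Dynamics.coverEntropy_nonneg sh Set.univ_nonempty)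
    unfold Dynamics.coverEntropy
    refine iSup₂_le fun U hU => ?_
    have h1 : ∀ᶠ n : ℕ in atTop, ((n : OnePoint ℕ), OnePoint.infty) ∈ U :=
      tend_inf.eventually (mem_nhds_right OnePoint.infty hU)
    obtain ⟨N, hN⟩ := eventually_atTop.mp h1
    let s : Finset (OnePoint ℕ) :=
      insert OnePoint.infty ((Finset.range N).image (fun n : ℕ => (n : OnePoint ℕ)))
    have hs : ∀ k, Dynamics.IsDynCoverOf sh Set.univ U k s := by
      intro k x _
      induction x using OnePoint.rec with
      | infty =>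
        exact ⟨OnePoint.infty, by simp [s],
          Dynamics.mem_dynEntourage.mpr fun j _ => refl_mem_uniformity hU⟩
      | coe n =>
        by_cases hn : n < N
        · refine ⟨n, ?_, Dynamics.mem_dynEntourage.mpr fun j _ => refl_mem_uniformity hU⟩
          simp only [s, Finset.coe_insert, Finset.coe_image, Set.mem_insert_iff]
          exact Or.inr ⟨n, by simpa using hn, rfl⟩
        · refine ⟨OnePoint.infty, by simp [s], Dynamics.mem_dynEntourage.mpr fun j _ => ?_⟩
          rw [sh_iter, sh_inf]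
          exact hN _ (by omega)
    have hc : s.card ≠ 0 := Finset.card_ne_zero.mpr ⟨OnePoint.infty, by simp [s]⟩
    unfold Dynamics.coverEntropyEntourage
    rw [← ExpGrowth.expGrowthSup_const (b := (s.card : ENNReal)) (by exact_mod_cast hc) (by simp)]
    apply ExpGrowth.expGrowthSup_monotone
    intro k
    exact (ENat.toENNReal_mono (hs k).coverMincard_le_card).trans (by simp)
  obtain ⟨L, hL⟩ := h (OnePoint ℕ) sh sh_cont hent ff ff_cont ((0 : ℕ) : OnePoint ℕ)
  have h2 := (Complex.continuous_re.tendsto L).comp hL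
  have h3 : Tendsto (fun N : ℕ => ∑ n ∈ Finset.Icc 1 N, bb n * ee n) atTop (𝓝 L.re) := by
    refine h2.congr fun N => ?_
    simp only [Function.comp]
    rw [← Complex.ofReal_re (∑ n ∈ Finset.Icc 1 N, bb n * ee n)]
    congr 1
    rw [Complex.ofReal_sum]
    apply Finset.sum_congr rfl
    intro n _
    rw [sh_iter, zero_add]
    change _ * ((((ArithmeticFunction.moebius n : ℤ) : ℝ) * ee n : ℝ) : ℂ) = _
    unfold bb
    push_cast
    ring
  have h4 : Tendsto (fun N : ℕ => ∑ n ∈ Finset.Icc 1 N, bb n * ee n) atTop atTop :=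
    tendsto_atTop_mono sum_ge (tendsto_atTop_add_const_right _ (-1) sq_tend)
  exact not_tendsto_nhds_of_tendsto_atTop h4 _ h3

/-- (L) is false; hence the equivalence (S) ↔ (L) holds exactly when (S) fails. -/
theorem result :
    (¬ (∀ (X : Type) [MetricSpace X] [CompactSpace X] (T : X → X), Continuous T →
      Dynamics.coverEntropy T Set.univ = 0 →
      ∀ f : X → ℂ, Continuous f → ∀ x : X,
        ∃ L : ℂ, Tendsto (fun N : ℕ =>
          ∑ n ∈ Finset.Icc 1 N,
            ((ArithmeticFunction.moebius n : ℤ) : ℂ) / (n : ℂ) * f (T^[n] x))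
          atTop (𝓝 L))) ∧
    (((∀ (X : Type) [MetricSpace X] [CompactSpace X] (T : X → X), Continuous T →
      Dynamics.coverEntropy T Set.univ = 0 →
      ∀ f : X → ℂ, Continuous f → ∀ x : X,
        Tendsto (fun N : ℕ =>
          (∑ n ∈ Finset.Icc 1 N,
            ((ArithmeticFunction.moebius n : ℤ) : ℂ) * f (T^[n] x)) / (N : ℂ))
          atTop (𝓝 0)) ↔
    (∀ (X : Type) [MetricSpace X] [CompactSpace X] (T : X → X), Continuous T →
      Dynamics.coverEntropy T Set.univ = 0 →
      ∀ f : X → ℂ, Continuous f → ∀ x : X,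
        ∃ L : ℂ, Tendsto (fun N : ℕ =>
          ∑ n ∈ Finset.Icc 1 N,
            ((ArithmeticFunction.moebius n : ℤ) : ℂ) / (n : ℂ) * f (T^[n] x))
          atTop (𝓝 L))) ↔
    ¬ (∀ (X : Type) [MetricSpace X] [CompactSpace X] (T : X → X), Continuous T →
      Dynamics.coverEntropy T Set.univ = 0 →
      ∀ f : X → ℂ, Continuous f → ∀ x : X,
        Tendsto (fun N : ℕ =>
          (∑ n ∈ Finset.Icc 1 N,
            ((ArithmeticFunction.moebius n : ℤ) : ℂ) * f (T^[n] x)) / (N : ℂ))
          atTop (𝓝 0))) :=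
  ⟨notL, ⟨fun h hS => notL (h.mp hS), fun h => ⟨fun hS => absurd hS h, fun hL => absurd hL notL⟩⟩⟩

end Pool.Agent.Results.MP_aae597_nt.LandauFalse
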